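import Pool.Agent.Q278.KT.Stm

/-! Project KT, lemma DUA: the duality step, from the mean value RT and the product lemma PRD. -/

set_option autoImplicit false

namespace Pool.Agent.Q31.KT

open Finset Pool.Agent.H376R2.MR Pool.Agent.Q240.KS Pool.Agent.Q278.KT

theorem t_DUA (hRT : S_RT) (hPRD : S_PRD) : S_DUA := by
  intro ε hε
  obtain ⟨C, hC1, hRT'⟩ := hRT ε hε
  obtain ⟨Y₀, hP⟩ := hPRD ε hε
  refine ⟨C, Y₀, hC1, ?_⟩
  intro Y hY d hd S K v ρ B U L f hK hρ hB hL hU hUs hf hBd hbig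
  obtain ⟨s, b, hs, hprod⟩ := hP Y hY d hd S
  set M : ℝ := Real.exp ((∑ i ∈ S, (d i : ℝ)) / 20) with hM
  have hM1 : 1 ≤ M := by
    apply Real.one_le_exp
    have : 0 ≤ ∑ i ∈ S, (d i : ℝ) := sum_nonneg fun i _ => Nat.cast_nonneg _
    positivity
  have hlogM : Real.log M = (∑ i ∈ S, (d i : ℝ)) / 20 := Real.log_exp _
  set Su : ℝ → ℂ := fun u => ∑ k ∈ L, ((f k : ℝ) : ℂ) *
    Complex.exp (((k : ℝ) * u : ℝ) * Complex.I) * EE (zY Y) d k with hSu
  set c : ℝ → ℂ := fun u => (starRingEnd ℂ (Su u)) / ((‖Su u‖ : ℝ) : ℂ) with hc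
  have hcn : ∀ u, ‖c u‖ ≤ 1 := by
    intro u
    simp only [hc, norm_div, RCLike.norm_conj, Complex.norm_real, norm_norm]
    exact div_self_le_one _
  have hcS : ∀ u ∈ U, c u * Su u = ((‖Su u‖ : ℝ) : ℂ) := by
    intro u hu
    have hne : ((‖Su u‖ : ℝ) : ℂ) ≠ 0 := by
      have : 0 < ‖Su u‖ := lt_of_lt_of_le hρ (hbig u hu)
      exact_mod_cast this.ne'
    simp only [hc]
    rw [div_mul_eq_mul_div, div_eq_iff hne]
    rw [mul_comm, Complex.mul_conj, Complex.normSq_eq_norm_sq]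
    push_cast
    ring
  set R : ℤ → ℂ := fun k => ∑ u ∈ U, c u * Complex.exp (((k : ℝ) * u : ℝ) * Complex.I) with hR
  set x : ℤ → ℝ := fun k => ‖R k * DP s b k‖ with hx
  have hmain := hRT' K v M (Real.exp (ε * Y)) U c s b hK hM1 (Real.exp_pos _).le hU hUs
    (fun u _ => hcn u) (fun n hn => by
      obtain ⟨h1, h2, h3⟩ := hs n hn
      exact ⟨h1, by rw [hlogM]; exact h2, h3⟩)
  -- the sum over U
  have h1 : (U.card : ℝ) * ρ ≤ ‖∑ u ∈ U, c u * Su u‖ := by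
    rw [sum_congr rfl hcS, ← Complex.ofReal_sum, Complex.norm_real, Real.norm_eq_abs,
      abs_of_nonneg (sum_nonneg fun u _ => norm_nonneg _)]
    calc (U.card : ℝ) * ρ = ∑ u ∈ U, ρ := by rw [sum_const, nsmul_eq_mul]
      _ ≤ ∑ u ∈ U, ‖Su u‖ := sum_le_sum hbig
  have h2 : ∑ u ∈ U, c u * Su u = ∑ k ∈ L, ((f k : ℝ) : ℂ) * EE (zY Y) d k * R k := by
    simp only [hSu, hR, mul_sum]
    rw [sum_comm]
    apply sum_congr rfl
    intro k _
    apply sum_congr rfl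
    intro u _
    ring
  have h3 : ∀ k ∈ L, ‖((f k : ℝ) : ℂ) * EE (zY Y) d k * R k‖ ≤ B * x k := by
    intro k hk
    have e1 : EE (zY Y) d k = (∏ i ∈ S, PF (zY Y) (ty i) (d i) k) *
        ∏ i ∈ Sᶜ, PF (zY Y) (ty i) (d i) k := by
      unfold EE
      exact (prod_mul_prod_compl S _).symm
    rw [e1, hprod k]
    simp only [hx, norm_mul, Complex.norm_real, Real.norm_eq_abs]
    have e2 := hf k hk
    have e3 := hBd k hk
    have e4 : 0 ≤ ‖DP s b k‖ := norm_nonneg _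
    have e5 : 0 ≤ ‖R k‖ := norm_nonneg _
    calc |f k| * (‖DP s b k‖ * ‖∏ i ∈ Sᶜ, PF (zY Y) (ty i) (d i) k‖) * ‖R k‖
        ≤ 1 * (‖DP s b k‖ * B) * ‖R k‖ := by
          apply mul_le_mul_of_nonneg_right _ e5
          apply mul_le_mul e2 (mul_le_mul_of_nonneg_left e3 e4) (by positivity) (by norm_num)
      _ = B * (‖R k‖ * ‖DP s b k‖) := by ring
  have h4 : (U.card : ℝ) * ρ ≤ B * ∑ k ∈ L, x k := by
    refine h1.trans ?_
    rw [h2, mul_sum]
    exact (norm_sum_le _ _).trans (sum_le_sum h3)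
  have h5 : (∑ k ∈ L, x k) ^ 2 ≤ (L.card : ℝ) * ∑ k ∈ L, x k ^ 2 := sq_sum_le_card_mul_sum_sq
  have h6 : ∑ k ∈ L, x k ^ 2 ≤ ∑ k ∈ FK K, x k ^ 2 :=
    sum_le_sum_of_subset_of_nonneg hL fun k _ _ => sq_nonneg _
  have h0 : 0 ≤ (U.card : ℝ) * ρ := by positivity
  calc ((U.card : ℝ) * ρ) ^ 2 ≤ (B * ∑ k ∈ L, x k) ^ 2 := pow_le_pow_left₀ h0 h4 2
    _ = B ^ 2 * (∑ k ∈ L, x k) ^ 2 := by ring
    _ ≤ B ^ 2 * ((L.card : ℝ) * ∑ k ∈ L, x k ^ 2) :=
        mul_le_mul_of_nonneg_left h5 (by positivity)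
    _ ≤ B ^ 2 * ((L.card : ℝ) * ∑ k ∈ FK K, x k ^ 2) := by
        apply mul_le_mul_of_nonneg_left _ (by positivity)
        exact mul_le_mul_of_nonneg_left h6 (Nat.cast_nonneg _)
    _ ≤ B ^ 2 * ((L.card : ℝ) * (C * (K : ℝ) ^ ε * Real.exp (ε * Y) ^ 2 *
          ((U.card : ℝ) ^ 2 + K * U.card / M +
            (U.card : ℝ) ^ (7 / 4 : ℝ) * (K : ℝ) ^ (3 / 4 : ℝ) / M))) := by
        apply mul_le_mul_of_nonneg_left _ (by positivity)
        apply mul_le_mul_of_nonneg_left _ (Nat.cast_nonneg _)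
        exact hmain
    _ = _ := by
        have e1 : Real.exp (ε * Y) ^ 2 = Real.exp (2 * ε * Y) := by
          rw [← Real.exp_nat_mul]
          congr 1
          push_cast
          ring
        have e2 : Real.exp (-((∑ i ∈ S, (d i : ℝ)) / 20)) = M⁻¹ := by
          rw [Real.exp_neg]
        rw [e1, e2]
        ring

end Pool.Agent.Q31.KT
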