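import Pool.Agent.Q278.KT.Stm
import Pool.Agent.Q95.KS.Tup

/-! Project KT, lemma PRD: a product of a subset of the factors is one Dirichlet polynomial. -/

set_option autoImplicit false

namespace Pool.Agent.Q31.KT

open Finset Pool.Agent.H376R2.MR Pool.Agent.Q240.KS Pool.Agent.Q278.KT Pool.Agent.Q95.KS

theorem prodS_bound (z : ℕ) (d : Fin 10 → ℕ) (S : Finset (Fin 10)) {n : ℕ} (hn : n ≠ 0) :
    |(∏ i ∈ S, af z (ty i) (d i)) n| ≤
      (1 + Real.log n) ^ 10 * (n.divisors.card : ℝ) ^ 10 / n := by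
  have hln : 0 ≤ Real.log (n : ℝ) := Real.log_natCast_nonneg n
  have h1 := prod_bound hn S (fun i => af z (ty i) (d i)) (fun _ => 1 + Real.log n)
    (fun _ => by positivity) ?_ n dvd_rfl
  · rw [prod_const] at h1
    have hcard : S.card ≤ 10 := by
      have := card_le_univ S
      rwa [Fintype.card_fin] at this
    have hdiv1 : (1 : ℝ) ≤ (n.divisors.card : ℝ) := by
      have : 0 < n.divisors.card := card_pos.2 ⟨1, Nat.one_mem_divisors.2 hn⟩
      exact_mod_cast this
    refine h1.trans ?_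
    apply div_le_div_of_nonneg_right _ (Nat.cast_nonneg _)
    apply mul_le_mul
    · exact pow_le_pow_right₀ (by linarith) hcard
    · exact pow_le_pow_right₀ hdiv1 hcard
    · positivity
    · positivity
  · intro i m hm
    rw [af_apply, cf_eq, abs_div, abs_mul, abs_of_nonneg (w_nonneg _), Nat.abs_cast]
    apply div_le_div_of_nonneg_right _ (Nat.cast_nonneg _)
    calc |gt z (ty i) m| * w (20 * Real.log m - (d i)) ≤ (1 + Real.log n) * 1 := by
          apply mul_le_mul (gt_bound _ hn hm) (w_le_one _) (w_nonneg _) (by positivity)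
      _ = 1 + Real.log n := mul_one _

theorem t_PRD : S_PRD := by
  intro ε hε
  obtain ⟨C, hC, hdiv⟩ := Pool.Agent.Helper112.divisor_bound (ε / 40) (by positivity)
  obtain ⟨Y₁, hY₁⟩ := big_exists (4 ^ 10 * C ^ 10 * Real.exp (3 * ε / 8))
    (3 * ε / 4) (by positivity) (by positivity)
  refine ⟨max Y₁ 2, fun Y hY d hd S => ?_⟩
  have hY2 : 2 ≤ Y := (le_max_right _ _).trans hY
  have hbig := hY₁ Y ((le_max_left _ _).trans hY)
  set T : ArithmeticFunction ℝ := ∏ i ∈ S, af (zY Y) (ty i) (d i) with hT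
  set N : ℕ := ∏ i ∈ S, ⌊Real.exp (((d i : ℝ) + 1) / 20)⌋₊ with hN
  have hcard : S.card ≤ 10 := by
    have := card_le_univ S
    rwa [Fintype.card_fin] at this
  have hcardR : (S.card : ℝ) ≤ 10 := by exact_mod_cast hcard
  have hlogs : ∀ n : ℕ, T n ≠ 0 → |Real.log n - (∑ i ∈ S, (d i : ℝ)) / 20| ≤ 1 / 2 := by
    intro n hn
    refine (supp_prod (zY Y) d S n hn).trans ?_
    linarith
  have hsum : (∑ i ∈ S, (d i : ℝ)) / 20 ≤ Y + 1 := by
    have h1 : ∑ i ∈ S, (d i : ℝ) ≤ ∑ i, (d i : ℝ) :=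
      sum_le_sum_of_subset_of_nonneg (subset_univ _) (fun i _ _ => Nat.cast_nonneg _)
    have h2 := (abs_le.1 (DY_sum hd)).2
    linarith
  refine ⟨(Icc 1 N).filter (fun n => T n ≠ 0), fun n => ((T n : ℝ) : ℂ), ?_, ?_⟩
  · intro n hn
    rw [mem_filter, mem_Icc] at hn
    obtain ⟨⟨hn1, -⟩, hTn⟩ := hn
    have hn0 : n ≠ 0 := by omega
    have hnpos : (0 : ℝ) < n := by exact_mod_cast hn1
    refine ⟨hn1, hlogs n hTn, ?_⟩
    have hlog : Real.log n ≤ Y + 3 / 2 := by
      have := (abs_le.1 (hlogs n hTn)).2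
      linarith
    have hln : 0 ≤ Real.log (n : ℝ) := Real.log_natCast_nonneg n
    have hdiv10 : (n.divisors.card : ℝ) ^ 10 ≤ C ^ 10 * Real.exp (ε / 4 * (Y + 3 / 2)) := by
      have e1 : (n.divisors.card : ℝ) ^ 10 ≤ (C * (n : ℝ) ^ (ε / 40)) ^ 10 :=
        pow_le_pow_left₀ (Nat.cast_nonneg _) (hdiv n hn1) 10
      have e2 : (C * (n : ℝ) ^ (ε / 40)) ^ 10 = C ^ 10 * Real.exp (ε / 4 * Real.log n) := by
        rw [mul_pow]
        congr 1
        rw [Real.rpow_def_of_pos hnpos, ← Real.exp_nat_mul]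
        congr 1
        push_cast
        ring
      rw [e2] at e1
      refine e1.trans ?_
      apply mul_le_mul_of_nonneg_left _ (by positivity)
      apply Real.exp_le_exp.mpr
      apply mul_le_mul_of_nonneg_left _ (by positivity)
      linarith
    rw [Complex.norm_real, Real.norm_eq_abs]
    calc |T n| ≤ (1 + Real.log n) ^ 10 * (n.divisors.card : ℝ) ^ 10 / n :=
          prodS_bound (zY Y) d S hn0
      _ ≤ (4 * Y) ^ 10 * (C ^ 10 * Real.exp (ε / 4 * (Y + 3 / 2))) / n := by
          apply div_le_div_of_nonneg_right _ hnpos.le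
          apply mul_le_mul _ hdiv10 (by positivity) (by positivity)
          apply pow_le_pow_left₀ (by positivity)
          linarith
      _ = (4 ^ 10 * C ^ 10 * Real.exp (3 * ε / 8)) * Y ^ 10 * Real.exp (ε / 4 * Y) / n := by
          have e3 : Real.exp (ε / 4 * (Y + 3 / 2)) =
              Real.exp (3 * ε / 8) * Real.exp (ε / 4 * Y) := by
            rw [← Real.exp_add]
            congr 1
            ring
          rw [e3]
          ring
      _ ≤ (4 ^ 10 * C ^ 10 * Real.exp (3 * ε / 8)) * Y ^ 20 * Real.exp (ε / 4 * Y) / n := by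
          apply div_le_div_of_nonneg_right _ hnpos.le
          apply mul_le_mul_of_nonneg_right _ (Real.exp_pos _).le
          apply mul_le_mul_of_nonneg_left _ (by positivity)
          exact pow_le_pow_right₀ (by linarith) (by norm_num)
      _ ≤ Real.exp (3 * ε / 4 * Y) * Real.exp (ε / 4 * Y) / n := by
          apply div_le_div_of_nonneg_right _ hnpos.le
          exact mul_le_mul_of_nonneg_right hbig (Real.exp_pos _).le
      _ = Real.exp (ε * Y) / n := by
          rw [← Real.exp_add]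
          congr 2
          ring
  · intro k
    have h1 := Lf_prod k S (fun i => ⌊Real.exp (((d i : ℝ) + 1) / 20)⌋₊)
      (fun i => af (zY Y) (ty i) (d i)) (fun i => af_sup (zY Y) (ty i) (d i))
    have h2 : ∏ i ∈ S, PF (zY Y) (ty i) (d i) k =
        ∏ i ∈ S, Lf k ⌊Real.exp (((d i : ℝ) + 1) / 20)⌋₊ (af (zY Y) (ty i) (d i)) := rfl
    rw [h2, h1.2]
    unfold Lf DP
    rw [sum_filter]
    apply sum_congr rfl
    intro n _
    by_cases h0 : T n = 0
    · rw [if_neg (by simpa using h0)]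
      have : (∏ i ∈ S, af (zY Y) (ty i) (d i)) n = 0 := h0
      rw [this]
      simp
    · rw [if_pos h0]

end Pool.Agent.Q31.KT
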